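import Pool.Agent.Helper45.PQ.StN

/-!
# Project PQ, module NU4
-/

set_option autoImplicit false

open Module Classical
open scoped LinearAlgebra.Projectivization

namespace Pool.Agent.Helper34.PQ

open Pool.Agent.Helper45.PQ

universe u v

theorem hNU4 (h1 : StNUA) : StNU4.{v} := by
  intro α _ H m h q j hh hq hcard hm hsum hj hpair hall
  have hne : H.Nonempty := Finset.card_pos.1 (by omega)
  obtain ⟨R₁, hR₁, hmax⟩ := Finset.exists_max_image H m hne
  have hne2 : (H.erase R₁).Nonempty :=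
    Finset.card_pos.1 (by rw [Finset.card_erase_of_mem hR₁]; omega)
  obtain ⟨R₂, hR₂, hmax2⟩ := Finset.exists_max_image (H.erase R₁) m hne2
  have hR₂H := Finset.mem_of_mem_erase hR₂
  have hne12 : R₁ ≠ R₂ := (Finset.ne_of_mem_erase hR₂).symm
  have hp := hpair R₁ hR₁ R₂ hR₂H hne12
  have he1 : 1 ≤ m R₂ := hm R₂ hR₂H
  have hee : m R₂ ≤ m R₁ := hmax R₂ hR₂H
  have hsum2 : ∑ S ∈ H.erase R₁, m S + m R₁ = j := by
    rw [Finset.sum_erase_add _ _ hR₁]; exact hsum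
  obtain ⟨μ, hμ⟩ : ∃ μ, μ + 1 + m R₁ = q := ⟨q - 1 - m R₁, by omega⟩
  have hA := h1 h q (m R₂) (m R₁) μ hh hq he1 hee hp hμ
  have hB := hall R₁ hR₁ μ hμ
  have hC : ∑ S ∈ H.erase R₁, m S * ((1 + m S) * q ^ 3 + 1 + j)
      ≤ (μ - 1) * ((1 + m R₂) * q ^ 3 + (q - 1)) := by
    calc ∑ S ∈ H.erase R₁, m S * ((1 + m S) * q ^ 3 + 1 + j)
        ≤ ∑ S ∈ H.erase R₁, m S * ((1 + m R₂) * q ^ 3 + (q - 1)) := by
          apply Finset.sum_le_sum
          intro S hS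
          apply Nat.mul_le_mul_left
          have hq3 : (1 + m S) * q ^ 3 ≤ (1 + m R₂) * q ^ 3 :=
            Nat.mul_le_mul_right _ (by have := hmax2 S hS; omega)
          omega
      _ = (∑ S ∈ H.erase R₁, m S) * ((1 + m R₂) * q ^ 3 + (q - 1)) := by
          rw [Finset.sum_mul]
      _ ≤ (μ - 1) * ((1 + m R₂) * q ^ 3 + (q - 1)) := Nat.mul_le_mul_right _ (by omega)
  have hD := Nat.mul_le_mul_left (44 ^ h + 1) (Nat.add_le_add_left hC (μ * q ^ 3))
  exact absurd (lt_of_le_of_lt (hB.trans hD) hA) (lt_irrefl _)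

end Pool.Agent.Helper34.PQ
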